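import Pool.Agent.H844.Zar.Main

/-!
# The codimension of the classes with orthogonal lifts
-/

set_option autoImplicit false

universe u v

namespace Pool.Agent.H844.Zar

open Module LinearMap

namespace ModelData

variable {P : Type u} {M : ModelData.{u, v} P} {bad : Finset P}

/-- The cohomologically trivial classes on `X` which have a lift orthogonal to all fibral cycles, as
a subspace of the space of all cohomologically trivial classes. -/
def liftable (M : ModelData.{u, v} P) : Submodule ℚ M.hom0 :=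
  ((⨅ s, ker (M.deg s)).map M.res).comap M.hom0.subtype

/-- The classes with orthogonal lifts have finite codimension. -/
def FiniteCodim (M : ModelData.{u, v} P) : Prop :=
  FiniteDimensional ℚ (M.hom0 ⧸ M.liftable)

/-- The codimension of the classes with orthogonal lifts. -/
noncomputable def codim (M : ModelData.{u, v} P) : ℕ := finrank ℚ (M.hom0 ⧸ M.liftable)

lemma mem_liftable {c : M.hom0} :
    c ∈ M.liftable ↔ ∃ x, M.res x = c ∧ ∀ s z, M.deg s x z = 0 := by
  constructor
  · rintro ⟨x, hx, hxc⟩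
    refine ⟨x, hxc, fun s z => ?_⟩
    have h1 := (Submodule.mem_iInf _).1 hx s
    rw [mem_ker] at h1
    rw [h1, LinearMap.zero_apply]
  · rintro ⟨x, hxc, hx⟩
    exact ⟨x, (Submodule.mem_iInf _).2 fun s => by rw [mem_ker]; ext z; exact hx s z, hxc⟩

lemma lift_of (h : M.IsModel bad) {x0 : M.C} (hc : M.res x0 ∈ M.hom0)
    (hK : ∀ s ∈ bad, ∀ z, (∀ y, M.pair s y z = 0) → M.deg s x0 z = 0) :
    ∃ x, M.res x = M.res x0 ∧ ∀ s z, M.deg s x z = 0 := by
  classical
  have h1 : ∀ s, ∃ y : M.V s, s ∈ bad → M.pair s y = M.deg s x0 := by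
    intro s
    by_cases hs : s ∈ bad
    · have := finite_range_pair h s
      have h2 : M.deg s x0 ∈ (range (M.pair s)).dualCoannihilator.dualAnnihilator := by
        rw [LinearMap.dualCoannihilator_range_eq_ker_flip, Submodule.mem_dualAnnihilator]
        intro z hz0
        rw [mem_ker] at hz0
        exact hK s hs z fun y => LinearMap.congr_fun hz0 y
      rw [Subspace.dualCoannihilator_dualAnnihilator_eq] at h2
      obtain ⟨y, hy⟩ := h2
      exact ⟨y, fun _ => hy⟩
    · exact ⟨0, fun h => absurd h hs⟩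
  choose y hy using h1
  have hres : M.res (x0 - ∑ t ∈ bad, M.inc t (y t)) = M.res x0 := by
    rw [map_sub, map_sum, Finset.sum_eq_zero (fun t _ => h.res_inc t _), sub_zero]
  refine ⟨x0 - ∑ t ∈ bad, M.inc t (y t), hres, fun s z => ?_⟩
  by_cases hs : s ∈ bad
  · rw [map_sub, map_sum, LinearMap.sub_apply, LinearMap.sum_apply, Finset.sum_eq_single s]
    · have h3 := LinearMap.congr_fun (hy s hs) z
      change M.deg s (M.inc s (y s)) z = _ at h3
      rw [h3, sub_self]
    · intro t _ hts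
      exact h.disjoint s t hts.symm _ _
    · exact fun h => absurd hs h
  · exact h.good s hs _ (by rw [hres]; exact hc) z

/-- The functionals of the radical vanish on the kernel of the restriction. -/
lemma radFun_ker (h : M.IsModel bad) {s : P} {f : Dual ℚ M.C} (hf : f ∈ M.radFun s) {x : M.C}
    (hx : M.res x = 0) : f x = 0 := by
  obtain ⟨z, hz0, rfl⟩ := hf
  rw [SetLike.mem_coe, mem_ker] at hz0
  have hz : ∀ y, M.deg s (M.inc s y) z = 0 := fun y => LinearMap.congr_fun hz0 y
  have h1 := h.ker_res x hx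
  have h2 : (⨆ t, range (M.inc t)) ≤ ker ((M.deg s).flip z) := by
    refine iSup_le fun t => ?_
    rintro _ ⟨y, rfl⟩
    rw [mem_ker, LinearMap.flip_apply]
    by_cases hst : s = t
    · subst hst
      exact hz y
    · exact h.disjoint s t hst y z
  exact h2 h1

/-- The functionals on the radical at `s` which vanish on the cycles on `X`. -/
def ann (M : ModelData.{u, v} P) (s : P) : Submodule ℚ (Dual ℚ (M.radFun s)) :=
  (M.genFun.comap (M.radFun s).subtype).dualAnnihilator

lemma finrank_ann (h : M.IsModel bad) (s : P) :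
    M.dimFibre s = M.rankFibre s + M.dimX + finrank ℚ (M.ann s) := by
  have := finite_radFun h s
  have h1 := Subspace.finrank_add_finrank_dualAnnihilator_eq
    (M.genFun.comap (M.radFun s).subtype)
  have h2 : finrank ℚ (M.genFun.comap (M.radFun s).subtype) = M.dimX := by
    rw [← finrank_genFun h]
    exact (Submodule.comapSubtypeEquivOfLe (genFun_le h s)).finrank_eq
  rw [dimFibre_eq h, ← h1, h2, add_assoc]
  rfl

/-- The evaluation of the functionals of the radical at a section. -/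
noncomputable def ev (M : ModelData.{u, v} P) (σ : M.R →ₗ[ℚ] M.C) (s : P) :
    M.hom0 →ₗ[ℚ] Dual ℚ (M.radFun s) :=
  ((M.radFun s).subtype.flip).comp (σ.comp M.hom0.subtype)

lemma ev_apply (σ : M.R →ₗ[ℚ] M.C) (s : P) (c : M.hom0) (f : M.radFun s) :
    M.ev σ s c f = (f : Dual ℚ M.C) (σ c) := rfl

lemma ev_mem (h : M.IsModel bad) {σ : M.R →ₗ[ℚ] M.C} (hσ : ∀ c, M.res (σ c) = c) (s : P)
    (c : M.hom0) : M.ev σ s c ∈ M.ann s := by
  rw [ann, Submodule.mem_dualAnnihilator]
  rintro ⟨f, hf⟩ hf'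
  obtain ⟨_, ⟨w', rfl⟩, rfl⟩ := hf'
  rw [ev_apply]
  change M.degX (M.res (σ c)) w' = 0
  rw [hσ]
  exact h.hom0_num _ c.2 _

lemma ev_surj (h : M.IsModel bad) (hD : M.HomEqNum) {σ : M.R →ₗ[ℚ] M.C}
    (hσ : ∀ c, M.res (σ c) = c) (s : P) {l : Dual ℚ (M.radFun s)} (hl : l ∈ M.ann s) :
    ∃ c, M.ev σ s c = l := by
  have := finite_radFun h s
  obtain ⟨q, hq⟩ := (Subspace.quotDualCoannihilatorToDual_bijective (M.radFun s)).2 l
  obtain ⟨x, rfl⟩ := Submodule.Quotient.mk_surjective _ q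
  have hx : ∀ f : M.radFun s, (f : Dual ℚ M.C) x = l f := fun f => by
    rw [← hq]; rfl
  have hc : M.res x ∈ M.hom0 := by
    refine hD _ fun w' => ?_
    have hmem : M.res.dualMap (M.degX.flip w') ∈ M.genFun := ⟨_, ⟨w', rfl⟩, rfl⟩
    have h1 := hx ⟨_, genFun_le h s hmem⟩
    rw [ann, Submodule.mem_dualAnnihilator] at hl
    rw [hl _ hmem] at h1
    exact h1
  refine ⟨⟨M.res x, hc⟩, ?_⟩
  ext f
  rw [ev_apply, ← hx f]
  have h1 := radFun_ker h f.2 (x := σ (M.res x) - x) (by rw [map_sub, hσ, sub_self])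
  rw [map_sub, sub_eq_zero] at h1
  exact h1

lemma exists_section (h : M.IsModel bad) : ∃ σ : M.R →ₗ[ℚ] M.C, ∀ c, M.res (σ c) = c := by
  obtain ⟨σ, hσ⟩ := M.res.exists_rightInverse_of_surjective
    (LinearMap.range_eq_top.2 h.res_surj)
  exact ⟨σ, fun c => LinearMap.congr_fun hσ c⟩

/-- All evaluations. -/
noncomputable def evAll (h : M.IsModel bad) {σ : M.R →ₗ[ℚ] M.C} (hσ : ∀ c, M.res (σ c) = c) :
    M.hom0 →ₗ[ℚ] ∀ s : bad, M.ann s :=
  LinearMap.pi fun s => (M.ev σ s).codRestrict (M.ann s) (ev_mem h hσ s)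

lemma ker_evAll (h : M.IsModel bad) {σ : M.R →ₗ[ℚ] M.C} (hσ : ∀ c, M.res (σ c) = c) :
    ker (evAll h hσ) = M.liftable := by
  ext c
  rw [mem_ker, mem_liftable]
  constructor
  · intro h0
    have h1 : ∀ s ∈ bad, ∀ f : M.radFun s, (f : Dual ℚ M.C) (σ c) = 0 := by
      intro s hs f
      have h2 := congrFun h0 ⟨s, hs⟩
      have h3 : M.ev σ s c = 0 := congrArg Subtype.val h2
      exact LinearMap.congr_fun h3 f
    have h4 := lift_of h (x0 := σ c) (by rw [hσ]; exact c.2) fun s hs z hz =>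
      h1 s hs ⟨(M.deg s).flip z, ⟨z, by
        rw [SetLike.mem_coe, mem_ker]
        ext y
        exact hz y, rfl⟩⟩
    rwa [hσ] at h4
  · rintro ⟨x, hx, hort⟩
    funext s
    refine Subtype.ext ?_
    change M.ev σ s c = 0
    ext ⟨f, hf⟩
    rw [ev_apply]
    have h1 := radFun_ker h hf (x := σ c - x) (by rw [map_sub, hσ, hx, sub_self])
    rw [map_sub, sub_eq_zero] at h1
    change f (σ c) = 0
    rw [h1]
    obtain ⟨z, -, rfl⟩ := hf
    exact hort _ z

lemma finite_ann (h : M.IsModel bad) (s : P) : FiniteDimensional ℚ (M.ann s) := by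
  have := finite_radFun h s
  infer_instance

/-- The upper bound for the codimension. -/
theorem codim_le (h : M.IsModel bad) : FiniteDimensional ℚ (M.hom0 ⧸ M.liftable) ∧
    finrank ℚ (M.hom0 ⧸ M.liftable) + ∑ s ∈ bad, (M.rankFibre s + M.dimX) ≤
      ∑ s ∈ bad, M.dimFibre s := by
  obtain ⟨σ, hσ⟩ := exists_section h
  have h0 : ∀ s : bad, FiniteDimensional ℚ (M.ann s) := fun s => finite_ann h s
  have e := (evAll h hσ).quotKerEquivRange
  rw [ker_evAll h hσ] at e
  have h1 : FiniteDimensional ℚ (M.hom0 ⧸ M.liftable) := Module.Finite.equiv e.symm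
  refine ⟨h1, ?_⟩
  have h2 : finrank ℚ (M.hom0 ⧸ M.liftable) ≤ ∑ s : bad, finrank ℚ (M.ann s) := by
    rw [e.finrank_eq, ← Module.finrank_pi_fintype ℚ]
    exact Submodule.finrank_le _
  have h3 : ∑ s ∈ bad, M.dimFibre s =
      ∑ s ∈ bad, (M.rankFibre s + M.dimX) + ∑ s : bad, finrank ℚ (M.ann s) := by
    rw [Finset.sum_coe_sort bad fun s => finrank ℚ (M.ann s), ← Finset.sum_add_distrib]
    exact Finset.sum_congr rfl fun s _ => finrank_ann h s
  rw [h3, add_comm]
  exact Nat.add_le_add_left h2 _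

/-- The lower bound for the codimension. -/
theorem le_codim (h : M.IsModel bad) (hD : M.HomEqNum) (s : P) (hs : s ∈ bad) :
    M.dimFibre s ≤ M.rankFibre s + M.dimX + finrank ℚ (M.hom0 ⧸ M.liftable) := by
  obtain ⟨σ, hσ⟩ := exists_section h
  have h0 := (codim_le h).1
  set g := (M.ev σ s).codRestrict (M.ann s) (ev_mem h hσ s) with hg
  have hle : M.liftable ≤ ker g := by
    rw [← ker_evAll h hσ]
    intro c hc
    rw [mem_ker] at hc ⊢
    exact congrFun hc ⟨s, hs⟩
  have hsurj : Function.Surjective (M.liftable.liftQ g hle) := by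
    rintro ⟨l, hl⟩
    obtain ⟨c, hc⟩ := ev_surj h hD hσ s hl
    exact ⟨Submodule.Quotient.mk c, Subtype.ext hc⟩
  rw [finrank_ann h]
  exact Nat.add_le_add_left (LinearMap.finrank_le_finrank_of_surjective hsurj) _

theorem main (M : ModelData.{u, v} P) (h : M.IsModel bad) :
    (∀ s, M.rankFibre s + M.dimX ≤ M.dimFibre s ∧
      (M.ZariskiLemma s ↔ M.dimFibre s = M.rankFibre s + M.dimX)) ∧
    (M.FiniteCodim ∧
      M.codim + ∑ s ∈ bad, (M.rankFibre s + M.dimX) ≤ ∑ s ∈ bad, M.dimFibre s) ∧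
    ((∀ s ∈ bad, M.ZariskiLemma s) → M.Lifting) ∧
    (M.HomEqNum → (∀ s ∈ bad, M.dimFibre s ≤ M.rankFibre s + M.dimX + M.codim) ∧
      (M.Lifting ↔ ∀ s ∈ bad, M.ZariskiLemma s)) :=
  ⟨fun s => ⟨rank_le h s, zariski_iff_rank h s⟩, codim_le h, lifting_of_zariski h,
    fun hD => ⟨fun s hs => le_codim h hD s hs,
      ⟨fun hL s _ => zariski_of_lifting h hD hL s, lifting_of_zariski h⟩⟩⟩

end ModelData

end Pool.Agent.H844.Zar
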