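import Mathlib

/-!
# Zariski's lemma and orthogonal lifts of cohomologically trivial cycles
-/

set_option autoImplicit false

universe u v

namespace Pool.Agent.H844.Zar

open Module LinearMap

/-- The data of a regular proper flat model `𝒳` of `X` and a codimension `i`; `d = dim X`, and `P` is
the set of the places `s` (the closed points of the base). All groups are with rational
coefficients: `C = Ch^i(𝒳)`, `R = Ch^i(X)`, `C' = Ch^(d-i)(𝒳)`, `R' = Ch^(d-i)(X)`; `V s` and `V' s` are
the Chow groups of the cycles of codimension `i` and `d + 1 - i` in `𝒳` which are supported in the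
fibre `𝒳_s`; `res` and `res'` are the restrictions, `inc` the natural map `V s → Ch^i(𝒳)`,
`deg s x z` is the degree of the intersection of `x ∈ Ch^i(𝒳)` and `z ∈ V' s` (a zero cycle on
`𝒳_s`), `fib s w` is the intersection of `w` and the fibre `𝒳_s`, `degX` is the intersection number on
`X`, and `hom0` is the space of the cohomologically trivial classes. -/
structure ModelData (P : Type u) where
  C : Type v
  R : Type v
  C' : Type v
  R' : Type v
  V : P → Type v
  V' : P → Type v
  [c1 : AddCommGroup C]
  [c2 : Module ℚ C]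
  [r1 : AddCommGroup R]
  [r2 : Module ℚ R]
  [c1' : AddCommGroup C']
  [c2' : Module ℚ C']
  [r1' : AddCommGroup R']
  [r2' : Module ℚ R']
  [v1 : ∀ s, AddCommGroup (V s)]
  [v2 : ∀ s, Module ℚ (V s)]
  [v1' : ∀ s, AddCommGroup (V' s)]
  [v2' : ∀ s, Module ℚ (V' s)]
  res : C →ₗ[ℚ] R
  res' : C' →ₗ[ℚ] R'
  inc : ∀ s, V s →ₗ[ℚ] C
  deg : ∀ s, C →ₗ[ℚ] V' s →ₗ[ℚ] ℚ
  fib : ∀ s, C' →ₗ[ℚ] V' s
  degX : R →ₗ[ℚ] R' →ₗ[ℚ] ℚ
  hom0 : Submodule ℚ R

attribute [instance] ModelData.c1 ModelData.c2 ModelData.r1 ModelData.r2 ModelData.c1'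
  ModelData.c2' ModelData.r1' ModelData.r2' ModelData.v1 ModelData.v2 ModelData.v1' ModelData.v2'

namespace ModelData

variable {P : Type u} (M : ModelData.{u, v} P)

/-- The pairing of the fibral cycles of codimension `i` and `d + 1 - i` over `s`. -/
def pair (s : P) : M.V s →ₗ[ℚ] M.V' s →ₗ[ℚ] ℚ := (M.deg s).comp (M.inc s)

/-- The restrictions to the generic fibre are surjective. -/
def Surj : Prop := Function.Surjective M.res ∧ Function.Surjective M.res'

/-- A class restricts to zero on `X` if and only if it is a sum of fibral classes. -/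
def Localization : Prop :=
  (∀ s y, M.res (M.inc s y) = 0) ∧ ∀ x, M.res x = 0 → x ∈ ⨆ s, range (M.inc s)

/-- Fibral cycles over different places do not meet. -/
def FibresDisjoint : Prop := ∀ s t, s ≠ t → ∀ y z, M.deg s (M.inc t y) z = 0

/-- The intersection number of `x` with `w · 𝒳_s` is the intersection number of `x` and `w` on `X`. -/
def DegFib : Prop := ∀ s x w, M.deg s x (M.fib s w) = M.degX (M.res x) (M.res' w)

/-- Cohomologically trivial classes on `X` are numerically trivial. -/
def HomNum : Prop := ∀ c ∈ M.hom0, ∀ w, M.degX c w = 0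

/-- Outside the finite set `bad` of places (of bad reduction) a class whose restriction to `X` is
cohomologically trivial is orthogonal to the fibral cycles. -/
def GoodPlaces (bad : Finset P) : Prop :=
  ∀ s, s ∉ bad → ∀ x, M.res x ∈ M.hom0 → ∀ z, M.deg s x z = 0

/-- The fibral cycles modulo those orthogonal to all cycles on `𝒳`, and the cycles on `X` modulo
numerical equivalence, are finite-dimensional spaces. -/
def FiniteNum : Prop :=
  (∀ s, FiniteDimensional ℚ (range (M.deg s).flip)) ∧ FiniteDimensional ℚ (range M.degX.flip)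

/-- The known facts. -/
structure IsModel (bad : Finset P) : Prop where
  surj : M.Surj
  localization : M.Localization
  fibresDisjoint : M.FibresDisjoint
  degFib : M.DegFib
  homNum : M.HomNum
  goodPlaces : M.GoodPlaces bad
  finiteNum : M.FiniteNum

/-- Question 1 for `𝒳` and `i`: each cohomologically trivial class on `X` has a lift which is
orthogonal to all fibral cycles. -/
def Lifting : Prop := ∀ c ∈ M.hom0, ∃ x, M.res x = c ∧ ∀ s z, M.deg s x z = 0

/-- Zariski's lemma for the fibre over `s`: each fibral class `z` over `s` of codimension `d + 1 - i`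
which is orthogonal to the fibral classes over `s` of codimension `i` has the same intersection
numbers with the cycles on `𝒳` as the intersection of a cycle `w` on `𝒳` with the fibre. -/
def ZariskiLemma (s : P) : Prop :=
  ∀ z, (∀ y, M.pair s y z = 0) → ∃ w, ∀ x, M.deg s x z = M.deg s x (M.fib s w)

/-- The dimension of the space of the fibral cycles over `s` of codimension `d + 1 - i`, modulo those
which are orthogonal to all cycles on `𝒳`. -/
noncomputable def dimFibre (s : P) : ℕ := finrank ℚ (range (M.deg s).flip)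

/-- The rank of the intersection pairing of the fibral cycles over `s`. -/
noncomputable def rankFibre (s : P) : ℕ := finrank ℚ (range (M.pair s).flip)

/-- The dimension of `Ch^(d-i)(X)` modulo numerical equivalence. -/
noncomputable def dimX : ℕ := finrank ℚ (range M.degX.flip)

/-- The conjecture D for the codimension `i`: numerically trivial classes in `Ch^i(X)` are
cohomologically trivial. -/
def HomEqNum : Prop := ∀ c, (∀ w, M.degX c w = 0) → c ∈ M.hom0

variable {M} {bad : Finset P}

lemma IsModel.res_surj (h : M.IsModel bad) : Function.Surjective M.res := h.surj.1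

lemma IsModel.res_surj' (h : M.IsModel bad) : Function.Surjective M.res' := h.surj.2

lemma IsModel.res_inc (h : M.IsModel bad) (s : P) (y : M.V s) : M.res (M.inc s y) = 0 :=
  h.localization.1 s y

lemma IsModel.ker_res (h : M.IsModel bad) (x : M.C) (hx : M.res x = 0) :
    x ∈ ⨆ s, range (M.inc s) := h.localization.2 x hx

lemma IsModel.disjoint (h : M.IsModel bad) (s t : P) (hst : s ≠ t) (y : M.V t) (z : M.V' s) :
    M.deg s (M.inc t y) z = 0 := h.fibresDisjoint s t hst y z

lemma IsModel.deg_fib (h : M.IsModel bad) (s : P) (x : M.C) (w : M.C') :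
    M.deg s x (M.fib s w) = M.degX (M.res x) (M.res' w) := h.degFib s x w

lemma IsModel.hom0_num (h : M.IsModel bad) (c : M.R) (hc : c ∈ M.hom0) (w : M.R') :
    M.degX c w = 0 := h.homNum c hc w

lemma IsModel.good (h : M.IsModel bad) (s : P) (hs : s ∉ bad) (x : M.C)
    (hx : M.res x ∈ M.hom0) (z : M.V' s) : M.deg s x z = 0 := h.goodPlaces s hs x hx z

lemma IsModel.finite_fibre (h : M.IsModel bad) (s : P) :
    FiniteDimensional ℚ (range (M.deg s).flip) := h.finiteNum.1 s

lemma IsModel.finite_X (h : M.IsModel bad) : FiniteDimensional ℚ (range M.degX.flip) :=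
  h.finiteNum.2

lemma IsModel.pair_fib (h : M.IsModel bad) (s : P) (y : M.V s) (w : M.C') :
    M.pair s y (M.fib s w) = 0 := by
  change M.deg s (M.inc s y) (M.fib s w) = 0
  rw [h.deg_fib, h.res_inc, map_zero, LinearMap.zero_apply]

/-- The functionals on `Ch^i(𝒳)` which are given by the radical. -/
def radFun (M : ModelData.{u, v} P) (s : P) : Submodule ℚ (Dual ℚ M.C) :=
  (ker (M.pair s).flip).map (M.deg s).flip

/-- The functionals on `Ch^i(𝒳)` which are given by cycles on `X`. -/
def genFun (M : ModelData.{u, v} P) : Submodule ℚ (Dual ℚ M.C) :=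
  (range M.degX.flip).map M.res.dualMap

lemma genFun_le (h : M.IsModel bad) (s : P) : M.genFun ≤ M.radFun s := by
  rintro _ ⟨_, ⟨w', rfl⟩, rfl⟩
  obtain ⟨w, rfl⟩ := h.res_surj' w'
  refine ⟨M.fib s w, ?_, ?_⟩
  · rw [SetLike.mem_coe, mem_ker]
    ext y
    exact h.pair_fib s y w
  · ext x
    exact h.deg_fib s x w

lemma finrank_genFun (h : M.IsModel bad) : finrank ℚ M.genFun = M.dimX :=
  (Submodule.equivMapOfInjective M.res.dualMap
    (LinearMap.dualMap_injective_of_surjective h.res_surj) (range M.degX.flip)).finrank_eq.symm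

lemma finite_genFun (h : M.IsModel bad) : FiniteDimensional ℚ M.genFun :=
  have := h.finite_X
  Module.Finite.equiv (Submodule.equivMapOfInjective M.res.dualMap
    (LinearMap.dualMap_injective_of_surjective h.res_surj) (range M.degX.flip))

lemma radFun_le (s : P) : M.radFun s ≤ range (M.deg s).flip := by
  rintro _ ⟨z, -, rfl⟩
  exact ⟨z, rfl⟩

lemma finite_radFun (h : M.IsModel bad) (s : P) : FiniteDimensional ℚ (M.radFun s) :=
  have := h.finite_fibre s
  Submodule.finiteDimensional_of_le (radFun_le s)

lemma pair_flip (s : P) : (M.pair s).flip = (M.inc s).dualMap.comp (M.deg s).flip := by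
  ext z y
  rfl

lemma range_pair_flip (s : P) :
    range (M.pair s).flip = (range (M.deg s).flip).map (M.inc s).dualMap := by
  rw [pair_flip, LinearMap.range_comp]

lemma dimFibre_eq (h : M.IsModel bad) (s : P) :
    M.dimFibre s = M.rankFibre s + finrank ℚ (M.radFun s) := by
  have := h.finite_fibre s
  set K := range (M.deg s).flip with hK
  set ρ : K →ₗ[ℚ] Dual ℚ (M.V s) := (M.inc s).dualMap.domRestrict K with hρ
  have h1 : range ρ = range (M.pair s).flip := by
    rw [range_pair_flip]
    ext f
    constructor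
    · rintro ⟨⟨g, hg⟩, rfl⟩
      exact ⟨g, hg, rfl⟩
    · rintro ⟨g, hg, rfl⟩
      exact ⟨⟨g, hg⟩, rfl⟩
  have h2 : (ker ρ).map K.subtype = M.radFun s := by
    ext f
    constructor
    · rintro ⟨⟨g, ⟨z, rfl⟩⟩, hg, rfl⟩
      refine ⟨z, ?_, rfl⟩
      rw [SetLike.mem_coe, mem_ker, pair_flip]
      exact hg
    · rintro ⟨z, hz, rfl⟩
      refine ⟨⟨(M.deg s).flip z, ⟨z, rfl⟩⟩, ?_, rfl⟩
      rw [SetLike.mem_coe, mem_ker] at hz ⊢
      rw [pair_flip] at hz
      exact hz
  have h3 := (Submodule.equivMapOfInjective K.subtype K.injective_subtype (ker ρ)).finrank_eq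
  have h4 := ρ.finrank_range_add_finrank_ker
  rw [h2] at h3
  rw [h1, h3] at h4
  rw [dimFibre, rankFibre, ← hK, ← h4]

lemma zariski_iff (h : M.IsModel bad) (s : P) : M.ZariskiLemma s ↔ M.radFun s ≤ M.genFun := by
  constructor
  · rintro hz _ ⟨z, hz0, rfl⟩
    rw [SetLike.mem_coe, mem_ker] at hz0
    obtain ⟨w, hw⟩ := hz z fun y => LinearMap.congr_fun hz0 y
    refine ⟨M.degX.flip (M.res' w), ⟨_, rfl⟩, ?_⟩
    ext x
    exact ((hw x).trans (h.deg_fib s x w)).symm
  · intro hle z hz
    obtain ⟨_, ⟨w', rfl⟩, hw⟩ := hle ⟨z, by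
      rw [SetLike.mem_coe, mem_ker]
      ext y
      exact hz y, rfl⟩
    obtain ⟨w, rfl⟩ := h.res_surj' w'
    exact ⟨w, fun x => (LinearMap.congr_fun hw x).symm.trans (h.deg_fib s x w).symm⟩

theorem rank_le (h : M.IsModel bad) (s : P) : M.rankFibre s + M.dimX ≤ M.dimFibre s := by
  have := finite_radFun h s
  rw [dimFibre_eq h, ← finrank_genFun h]
  exact Nat.add_le_add_left (Submodule.finrank_mono (genFun_le h s)) _

theorem zariski_iff_rank (h : M.IsModel bad) (s : P) :
    M.ZariskiLemma s ↔ M.dimFibre s = M.rankFibre s + M.dimX := by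
  have := finite_radFun h s
  have := finite_genFun h
  rw [zariski_iff h, dimFibre_eq h, ← finrank_genFun h, Nat.add_left_cancel_iff]
  constructor
  · intro hle
    rw [le_antisymm hle (genFun_le h s)]
  · intro he
    exact (Submodule.eq_of_le_of_finrank_eq (genFun_le h s) he.symm).ge

lemma finite_range_pair (h : M.IsModel bad) (s : P) : FiniteDimensional ℚ (range (M.pair s)) := by
  have := h.finite_fibre s
  rw [← Subspace.finiteDimensional_quot_dualCoannihilator_iff,
    LinearMap.dualCoannihilator_range_eq_ker_flip]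
  have : FiniteDimensional ℚ (range (M.pair s).flip) := by
    rw [range_pair_flip]
    infer_instance
  exact Module.Finite.equiv (M.pair s).flip.quotKerEquivRange.symm

theorem lifting_of_zariski (h : M.IsModel bad) (hz : ∀ s ∈ bad, M.ZariskiLemma s) :
    M.Lifting := by
  classical
  intro c hc
  obtain ⟨x0, rfl⟩ := h.res_surj c
  have h1 : ∀ s, ∃ y : M.V s, s ∈ bad → M.pair s y = M.deg s x0 := by
    intro s
    by_cases hs : s ∈ bad
    · haveI := finite_range_pair h s
      have h2 : M.deg s x0 ∈ (range (M.pair s)).dualCoannihilator.dualAnnihilator := by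
        rw [LinearMap.dualCoannihilator_range_eq_ker_flip, Submodule.mem_dualAnnihilator]
        intro z hz0
        rw [mem_ker] at hz0
        obtain ⟨w, hw⟩ := hz s hs z fun y => LinearMap.congr_fun hz0 y
        rw [hw, h.deg_fib]
        exact h.hom0_num _ hc _
      rw [Subspace.dualCoannihilator_dualAnnihilator_eq] at h2
      obtain ⟨y, hy⟩ := h2
      exact ⟨y, fun _ => hy⟩
    · exact ⟨0, fun h => absurd h hs⟩
  choose y hy using h1
  have hres : M.res (x0 - ∑ t ∈ bad, M.inc t (y t)) = M.res x0 := by
    rw [map_sub, map_sum, Finset.sum_eq_zero (fun t _ => h.res_inc t _), sub_zero]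
  refine ⟨x0 - ∑ t ∈ bad, M.inc t (y t), hres, fun s z => ?_⟩
  by_cases hs : s ∈ bad
  · rw [map_sub, map_sum, LinearMap.sub_apply, LinearMap.sum_apply, Finset.sum_eq_single s]
    · have h3 := LinearMap.congr_fun (hy s hs) z
      change M.deg s (M.inc s (y s)) z = _ at h3
      rw [h3, sub_self]
    · intro t _ hts
      exact h.disjoint s t hts.symm _ _
    · exact fun h => absurd hs h
  · exact h.good s hs _ (by rw [hres]; exact hc) z

theorem zariski_of_lifting (h : M.IsModel bad) (hD : M.HomEqNum) (hL : M.Lifting) (s : P) :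
    M.ZariskiLemma s := by
  have := finite_genFun h
  rw [zariski_iff h]
  rintro _ ⟨z, hz0, rfl⟩
  rw [SetLike.mem_coe, mem_ker] at hz0
  have hz : ∀ y, M.deg s (M.inc s y) z = 0 := fun y => LinearMap.congr_fun hz0 y
  have hker : ∀ x, M.res x = 0 → M.deg s x z = 0 := by
    intro x hx
    have h1 := h.ker_res x hx
    have h2 : (⨆ t, range (M.inc t)) ≤ ker ((M.deg s).flip z) := by
      refine iSup_le fun t => ?_
      rintro _ ⟨y, rfl⟩
      rw [mem_ker, LinearMap.flip_apply]
      by_cases hst : s = t
      · subst hst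
        exact hz y
      · exact h.disjoint s t hst y z
    exact h2 h1
  have hmem : (M.deg s).flip z ∈ M.genFun.dualCoannihilator.dualAnnihilator := by
    rw [Submodule.mem_dualAnnihilator]
    intro x hx
    rw [Submodule.mem_dualCoannihilator] at hx
    have hx0 : M.res x ∈ M.hom0 := hD _ fun w' => hx _ ⟨M.degX.flip w', ⟨w', rfl⟩, rfl⟩
    obtain ⟨x', hx', hort⟩ := hL _ hx0
    have h1 := hker (x - x') (by rw [map_sub, hx', sub_self])
    rw [map_sub, LinearMap.sub_apply, hort, sub_zero] at h1
    exact h1
  rwa [Subspace.dualCoannihilator_dualAnnihilator_eq] at hmem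

end ModelData

end Pool.Agent.H844.Zar
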